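import Mathlib
import Pool.Agent.H116.ParentTree

/-!
# MP_f40460 — a sequence of trees that is `k`-universal for every `k`

We construct a single sequence of finite trees which is `k`-universal for all `k ≥ 1`.
-/

namespace Pool.Agent.Results.MP_f40460_co.UniversalTrees

open SimpleGraph Filter

/-- `Z_k(T)`: the number of `k`-element vertex sets inducing a connected subgraph. -/
noncomputable def Z {V : Type} (T : SimpleGraph V) (k : ℕ) : ℕ :=
  {U : Finset V | U.card = k ∧ (T.induce (U : Set V)).Connected}.ncard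

/-- `c(S,T)`: the number of `k`-element vertex sets `U` such that `T[U]` is connected and
isomorphic to `S`. -/
noncomputable def c {V : Type} {k : ℕ} (S : SimpleGraph (Fin k)) (T : SimpleGraph V) : ℕ :=
  {U : Finset V | U.card = k ∧ (T.induce (U : Set V)).Connected ∧
    Nonempty (T.induce (U : Set V) ≃g S)}.ncard

/-- The sequence of trees `T n` is `k`-universal. -/
def IsUniversal (V : ℕ → Type) [∀ n, Fintype (V n)] (T : ∀ n, SimpleGraph (V n)) (k : ℕ) :
    Prop :=
  (∀ᶠ n in atTop, k ≤ Fintype.card (V n)) ∧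
    ∀ S : SimpleGraph (Fin k), S.IsTree →
      0 < liminf (fun n => (c S (T n) : ℝ) / (Z (T n) k : ℝ)) atTop

/-! ### Trees as parent graphs -/

lemma exists_parent {V : Type} (G : SimpleGraph V) (hG : G.IsTree) (r : V) :
    ∃ (par : V → V) (rk : V → ℕ), par r = r ∧ (∀ v, v ≠ r → rk (par v) < rk v) ∧
      Pool.Agent.H116.ParentTree.ofParent par = G ∧ rk r = 0 := by
  classical
  have hconn := hG.connected
  have hnb : ∀ v, v ≠ r → ∃ w, G.Adj v w ∧ G.dist w r < G.dist v r := by
    intro v hv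
    obtain ⟨p, hp⟩ := hconn.exists_walk_length_eq_dist v r
    cases p with
    | nil => exact absurd rfl hv
    | cons h q =>
      refine ⟨_, h, ?_⟩
      rw [← hp, Walk.length_cons]
      exact Nat.lt_succ_of_le (dist_le q)
  choose! f hf using hnb
  let par : V → V := fun v => if v = r then r else f v
  have hpar : ∀ v, v ≠ r → par v = f v := fun v hv => if_neg hv
  have hlt : ∀ v, v ≠ r → G.dist (par v) r < G.dist v r := by
    intro v hv
    rw [hpar v hv]
    exact (hf v hv).2
  refine ⟨par, fun v => G.dist v r, if_pos rfl, hlt, ?_⟩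
  have hle : Pool.Agent.H116.ParentTree.ofParent par ≤ G := by
    have key : ∀ u v, u ≠ v → par u = v → G.Adj u v := by
      intro u v huv h
      by_cases hu : u = r
      · exfalso
        apply huv
        rw [← h, hu]
        exact (if_pos rfl).symm
      · rw [hpar u hu] at h
        rw [← h]
        exact (hf u hu).1
    intro u v huv
    obtain ⟨hne, h | h⟩ := huv
    · exact key u v hne h
    · exact (key v u hne.symm h).symm
  have hc : (Pool.Agent.H116.ParentTree.ofParent par).Connected :=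
    Pool.Agent.H116.ParentTree.connected par r (fun v => G.dist v r) hlt
  have hmin := isTree_iff_minimal_connected.1 hG
  exact ⟨le_antisymm hle (hmin.2 hc hle), dist_self⟩

/-! ### Gadgets -/

/-- all trees on the vertex sets `Fin (m+1)`. -/
abbrev Gad : Type := Σ m : ℕ, {G : SimpleGraph (Fin (m + 1)) // G.IsTree}

noncomputable def pf (g : Gad) : Fin (g.1 + 1) → Fin (g.1 + 1) :=
  (exists_parent g.2.1 g.2.2 0).choose

noncomputable def rk (g : Gad) : Fin (g.1 + 1) → ℕ :=
  (exists_parent g.2.1 g.2.2 0).choose_spec.choose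

lemma pf_zero (g : Gad) : pf g 0 = 0 :=
  (exists_parent g.2.1 g.2.2 0).choose_spec.choose_spec.1

lemma rk_lt (g : Gad) (v : Fin (g.1 + 1)) (hv : v ≠ 0) : rk g (pf g v) < rk g v :=
  (exists_parent g.2.1 g.2.2 0).choose_spec.choose_spec.2.1 v hv

lemma ofParent_pf (g : Gad) : Pool.Agent.H116.ParentTree.ofParent (pf g) = g.2.1 :=
  (exists_parent g.2.1 g.2.2 0).choose_spec.choose_spec.2.2.1

lemma rk_zero (g : Gad) : rk g 0 = 0 :=
  (exists_parent g.2.1 g.2.2 0).choose_spec.choose_spec.2.2.2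

/-! ### Combs -/

section Comb

variable (N : ℕ) (γ : ℕ → Gad)

/-- vertices of the comb: position `i ≤ N` and a vertex of the gadget at `i`. -/
abbrev CV : Type := Σ i : Fin (N + 1), Fin ((γ i.val).1 + 1)

noncomputable def cpar (p : CV N γ) : CV N γ :=
  if p.2 = 0 then ⟨⟨p.1.val - 1, by have := p.1.2; omega⟩, 0⟩ else ⟨p.1, pf (γ p.1.val) p.2⟩

/-- the comb: a path `0, …, N` with gadget `γ i` attached by its vertex `0` at `i`. -/
noncomputable def comb : SimpleGraph (CV N γ) := Pool.Agent.H116.ParentTree.ofParent (cpar N γ)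

lemma cpar_zero (i : Fin (N + 1)) :
    cpar N γ ⟨i, 0⟩ = ⟨⟨i.val - 1, by have := i.2; omega⟩, 0⟩ := by
  unfold cpar
  exact if_pos rfl

lemma cpar_ne (i : Fin (N + 1)) (v : Fin ((γ i.val).1 + 1)) (hv : v ≠ 0) :
    cpar N γ ⟨i, v⟩ = ⟨i, pf (γ i.val) v⟩ := by
  unfold cpar
  exact if_neg hv

lemma comb_isTree : (comb N γ).IsTree := by
  classical
  refine Pool.Agent.H116.ParentTree.isTree (cpar N γ) ⟨0, 0⟩
    (fun p => p.1.val + rk (γ p.1.val) p.2) ?_ ?_
  · rintro ⟨i, v⟩ hne
    by_cases hv : v = 0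
    · subst hv
      have hi : i ≠ 0 := by
        rintro rfl
        exact hne rfl
      have hi' : i.val ≠ 0 := fun h => hi (Fin.ext h)
      rw [cpar_zero]
      show i.val - 1 + rk (γ (i.val - 1)) 0 < i.val + rk (γ i.val) 0
      rw [rk_zero, rk_zero]
      omega
    · rw [cpar_ne N γ i v hv]
      exact Nat.add_lt_add_left (rk_lt (γ i.val) v hv) _
  · rw [cpar_zero]
    rfl

/-- adjacent vertices have positions differing by at most one. -/
lemma comb_pos (p q : CV N γ) (h : (comb N γ).Adj p q) :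
    p.1.val ≤ q.1.val + 1 ∧ q.1.val ≤ p.1.val + 1 := by
  have key : ∀ p : CV N γ, (cpar N γ p).1.val ≤ p.1.val ∧ p.1.val ≤ (cpar N γ p).1.val + 1 := by
    rintro ⟨i, v⟩
    by_cases hv : v = 0
    · subst hv
      rw [cpar_zero]
      show i.val - 1 ≤ i.val ∧ i.val ≤ i.val - 1 + 1
      omega
    · rw [cpar_ne N γ i v hv]
      exact ⟨le_refl _, Nat.le_succ _⟩
  obtain ⟨-, h | h⟩ := h
  · have := key p
    rw [h] at this
    omega
  · have := key q
    rw [h] at this
    omega

/-- the gadget at `i` is an induced subgraph of the comb. -/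
lemma comb_fiber (i : Fin (N + 1)) (u v : Fin ((γ i.val).1 + 1)) :
    (comb N γ).Adj ⟨i, u⟩ ⟨i, v⟩ ↔ (γ i.val).2.1.Adj u v := by
  rw [← ofParent_pf (γ i.val)]
  unfold comb
  rw [Pool.Agent.H116.ParentTree.ofParent_adj, Pool.Agent.H116.ParentTree.ofParent_adj]
  have key : ∀ u v : Fin ((γ i.val).1 + 1), u ≠ v →
      (cpar N γ ⟨i, u⟩ = ⟨i, v⟩ ↔ pf (γ i.val) u = v) := by
    intro u v huv
    by_cases hu : u = 0
    · subst hu
      rw [cpar_zero, pf_zero]
      constructor
      · intro h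
        rw [Sigma.mk.injEq] at h
        obtain ⟨h1, h2⟩ := h
        exfalso
        have h1' : i.val - 1 = i.val := congrArg Fin.val h1
        have hi : i = 0 := Fin.ext (by show i.val = 0; omega)
        subst hi
        exact huv (eq_of_heq h2)
      · intro h
        exact absurd h huv
    · rw [cpar_ne N γ i u hu, Sigma.mk.injEq]
      constructor
      · rintro ⟨-, h⟩
        exact eq_of_heq h
      · intro h
        exact ⟨rfl, heq_of_eq h⟩
  constructor
  · rintro ⟨hne, h⟩
    have huv : u ≠ v := fun e => hne (by rw [e])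
    refine ⟨huv, ?_⟩
    rcases h with h | h
    · exact Or.inl ((key u v huv).1 h)
    · exact Or.inr ((key v u huv.symm).1 h)
  · rintro ⟨huv, h⟩
    refine ⟨?_, ?_⟩
    · intro e
      rw [Sigma.mk.injEq] at e
      exact huv (eq_of_heq e.2)
    · rcases h with h | h
      · exact Or.inl ((key u v huv).2 h)
      · exact Or.inr ((key v u huv.symm).2 h)

/-- the vertex set of the gadget at `i`. -/
noncomputable def fib (i : Fin (N + 1)) : Finset (CV N γ) :=
  (Finset.univ : Finset (Fin ((γ i.val).1 + 1))).map ⟨fun v => (⟨i, v⟩ : CV N γ), by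
    intro a b h
    exact eq_of_heq (Sigma.mk.inj h).2⟩

lemma mem_fib (i : Fin (N + 1)) (p : CV N γ) : p ∈ fib N γ i ↔ p.1 = i := by
  unfold fib
  rw [Finset.mem_map]
  constructor
  · rintro ⟨v, -, rfl⟩
    rfl
  · intro h
    obtain ⟨j, v⟩ := p
    have h : j = i := h
    subst h
    exact ⟨v, Finset.mem_univ _, rfl⟩

lemma card_fib (i : Fin (N + 1)) : (fib N γ i).card = (γ i.val).1 + 1 := by
  unfold fib
  rw [Finset.card_map, Finset.card_univ, Fintype.card_fin]

lemma fib_iso (i : Fin (N + 1)) :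
    Nonempty ((comb N γ).induce (fib N γ i : Set (CV N γ)) ≃g (γ i.val).2.1) := by
  let e : Fin ((γ i.val).1 + 1) ≃ (fib N γ i : Set (CV N γ)) :=
    Equiv.ofBijective (fun v : Fin ((γ i.val).1 + 1) =>
      (⟨⟨i, v⟩, by rw [Finset.mem_coe, mem_fib]⟩ : (fib N γ i : Set (CV N γ)))) ⟨by
        intro a b h
        have h' := congrArg Subtype.val h
        exact eq_of_heq (Sigma.mk.inj h').2, by
        rintro ⟨p, hp⟩
        rw [Finset.mem_coe, mem_fib] at hp
        obtain ⟨j, v⟩ := p
        have hp : j = i := hp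
        subst hp
        exact ⟨v, rfl⟩⟩
  refine ⟨RelIso.symm (⟨e, ?_⟩ : (γ i.val).2.1 ≃g
    (comb N γ).induce (fib N γ i : Set (CV N γ)))⟩
  intro u w
  exact comb_fiber N γ i u w

end Comb

/-! ### Counting connected sets -/

section Count

variable {V : Type} [Fintype V] (T : SimpleGraph V) (pos : V → ℕ)

omit [Fintype V] in
lemma ivt (hpos : ∀ u v, T.Adj u v → pos u ≤ pos v + 1 ∧ pos v ≤ pos u + 1)
    (U : Set V) {a b : U} (p : (T.induce U).Walk a b) (x : ℕ)
    (h1 : pos a.1 ≤ x) (h2 : x ≤ pos b.1) : ∃ w : U, pos w.1 = x := by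
  induction p with
  | nil => exact ⟨_, le_antisymm h1 h2⟩
  | cons h p ih =>
    rename_i u v w
    by_cases hx : pos v.1 ≤ x
    · exact ih hx h2
    · have := hpos u.1 v.1 h
      exact ⟨u, by omega⟩

/-- a connected set of `k` vertices lies in a window of `k` consecutive positions. -/
lemma window (hpos : ∀ u v, T.Adj u v → pos u ≤ pos v + 1 ∧ pos v ≤ pos u + 1)
    (U : Finset V) (k : ℕ) (hk : U.card = k) (hU : (T.induce (U : Set V)).Connected) :
    ∃ a ∈ U, ∀ v ∈ U, pos a ≤ pos v ∧ pos v < pos a + k := by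
  classical
  have hne : U.Nonempty := by
    obtain ⟨⟨x, hx⟩⟩ := hU.nonempty
    exact ⟨x, hx⟩
  obtain ⟨a, ha, hmin⟩ := Finset.exists_min_image U pos hne
  refine ⟨a, ha, fun v hv => ⟨hmin v hv, ?_⟩⟩
  by_contra hcon
  push Not at hcon
  -- all positions from `pos a` to `pos v` occur
  have hsub : Finset.Icc (pos a) (pos v) ⊆ U.image pos := by
    intro x hx
    rw [Finset.mem_Icc] at hx
    obtain ⟨p⟩ := hU.preconnected ⟨a, ha⟩ ⟨v, hv⟩
    obtain ⟨w, hw⟩ := ivt T pos hpos _ p x hx.1 hx.2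
    exact Finset.mem_image.2 ⟨w.1, w.2, hw⟩
  have h1 := Finset.card_le_card hsub
  have h2 := Finset.card_image_le (s := U) (f := pos)
  rw [Nat.card_Icc] at h1
  omega

lemma pow_sum_le (k : ℕ) (hk : 1 ≤ k) (x : ℕ → ℕ) :
    (∑ l ∈ Finset.range k, x l) ^ k ≤ k ^ k * ∑ l ∈ Finset.range k, x l ^ k := by
  obtain ⟨m, hm, hmax⟩ := Finset.exists_max_image (Finset.range k) x ⟨0, by simp; omega⟩
  have h1 : ∑ l ∈ Finset.range k, x l ≤ k * x m := by
    calc ∑ l ∈ Finset.range k, x l ≤ ∑ _l ∈ Finset.range k, x m := Finset.sum_le_sum hmax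
      _ = k * x m := by simp
  calc (∑ l ∈ Finset.range k, x l) ^ k ≤ (k * x m) ^ k := Nat.pow_le_pow_left h1 k
    _ = k ^ k * x m ^ k := mul_pow _ _ _
    _ ≤ k ^ k * ∑ l ∈ Finset.range k, x l ^ k := by
      apply Nat.mul_le_mul_left
      exact Finset.single_le_sum (f := fun l => x l ^ k) (fun _ _ => Nat.zero_le _) hm

/-- the number of connected `k`-sets. -/
lemma Z_le (hpos : ∀ u v, T.Adj u v → pos u ≤ pos v + 1 ∧ pos v ≤ pos u + 1)
    (N : ℕ) (hN : ∀ v, pos v < N) (w : ℕ → ℕ)
    (hw : ∀ x, (Finset.univ.filter (fun v => pos v = x)).card ≤ w x)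
    (hw0 : ∀ x, N ≤ x → w x = 0) (k : ℕ) (hk : 1 ≤ k) :
    Z T k ≤ k ^ k * k * ∑ x ∈ Finset.range N, w x ^ k := by
  classical
  let W : ℕ → Finset V := fun p => Finset.univ.filter (fun v => p ≤ pos v ∧ pos v < p + k)
  have hcover : {U : Finset V | U.card = k ∧ (T.induce (U : Set V)).Connected} ⊆
      ((Finset.range N).biUnion (fun p => Finset.powersetCard k (W p)) : Finset (Finset V)) := by
    rintro U ⟨hU1, hU2⟩
    obtain ⟨a, ha, hwin⟩ := window T pos hpos U k hU1 hU2
    rw [Finset.mem_coe, Finset.mem_biUnion]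
    refine ⟨pos a, Finset.mem_range.2 (hN a), Finset.mem_powersetCard.2 ⟨?_, hU1⟩⟩
    intro v hv
    exact Finset.mem_filter.2 ⟨Finset.mem_univ _, hwin v hv⟩
  have hWcard : ∀ p, (W p).card ≤ ∑ l ∈ Finset.range k, w (p + l) := by
    intro p
    have hsub : W p ⊆ (Finset.range k).biUnion
        (fun l => Finset.univ.filter (fun v => pos v = p + l)) := by
      intro v hv
      obtain ⟨-, h1, h2⟩ := Finset.mem_filter.1 hv
      rw [Finset.mem_biUnion]
      exact ⟨pos v - p, Finset.mem_range.2 (by omega),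
        Finset.mem_filter.2 ⟨Finset.mem_univ _, by omega⟩⟩
    calc (W p).card ≤ _ := Finset.card_le_card hsub
      _ ≤ ∑ l ∈ Finset.range k, (Finset.univ.filter (fun v => pos v = p + l)).card :=
        Finset.card_biUnion_le
      _ ≤ _ := Finset.sum_le_sum (fun l _ => hw (p + l))
  calc Z T k ≤ (((Finset.range N).biUnion (fun p => Finset.powersetCard k (W p)) :
        Finset (Finset V)) : Set (Finset V)).ncard :=
        Set.ncard_le_ncard hcover (Finset.finite_toSet _)
    _ = ((Finset.range N).biUnion (fun p => Finset.powersetCard k (W p))).card :=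
        Set.ncard_coe_finset _
    _ ≤ ∑ p ∈ Finset.range N, (Finset.powersetCard k (W p)).card := Finset.card_biUnion_le
    _ ≤ ∑ p ∈ Finset.range N, k ^ k * ∑ l ∈ Finset.range k, w (p + l) ^ k := by
        apply Finset.sum_le_sum
        intro p _
        rw [Finset.card_powersetCard]
        calc ((W p).card).choose k ≤ (W p).card ^ k := Nat.choose_le_pow _ _
          _ ≤ (∑ l ∈ Finset.range k, w (p + l)) ^ k := Nat.pow_le_pow_left (hWcard p) k
          _ ≤ _ := pow_sum_le k hk (fun l => w (p + l))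
    _ = k ^ k * ∑ l ∈ Finset.range k, ∑ p ∈ Finset.range N, w (p + l) ^ k := by
        rw [← Finset.mul_sum, Finset.sum_comm]
    _ ≤ k ^ k * ∑ _l ∈ Finset.range k, ∑ x ∈ Finset.range N, w x ^ k := by
        apply Nat.mul_le_mul_left
        apply Finset.sum_le_sum
        intro l _
        have h1 : ∑ p ∈ Finset.range N, w (p + l) ^ k =
            ∑ x ∈ (Finset.range N).image (fun p => p + l), w x ^ k := by
          rw [Finset.sum_image]
          intro a _ b _ hab
          simpa using hab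
        rw [h1]
        have h2 : ∑ x ∈ (Finset.range N).image (fun p => p + l), w x ^ k =
            ∑ x ∈ ((Finset.range N).image (fun p => p + l)).filter (fun x => x < N),
              w x ^ k := by
          symm
          apply Finset.sum_subset (Finset.filter_subset _ _)
          intro x hx hx2
          have : N ≤ x := by
            by_contra hlt
            exact hx2 (Finset.mem_filter.2 ⟨hx, by omega⟩)
          rw [hw0 x this]
          exact zero_pow (by omega)
        rw [h2]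
        apply Finset.sum_le_sum_of_subset
        intro x hx
        exact Finset.mem_range.2 (Finset.mem_filter.1 hx).2
    _ = k ^ k * k * ∑ x ∈ Finset.range N, w x ^ k := by
        rw [Finset.sum_const, Finset.card_range, smul_eq_mul, mul_assoc]

end Count

/-! ### The sequence -/

noncomputable def unitGad : Gad := ⟨0, ⟨⊤, by
  have : Subsingleton (Fin (0 + 1)) := inferInstanceAs (Subsingleton (Fin 1))
  have : Nonempty (Fin (0 + 1)) := ⟨0⟩
  exact IsTree.of_subsingleton⟩⟩

lemma exists_enum : ∃ a : ℕ → Gad, (∀ j, (a j).1 ≤ j) ∧ ∀ g : Gad, ∃ j, a j = g := by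
  classical
  have : Nonempty Gad := ⟨unitGad⟩
  obtain ⟨e, he⟩ := exists_surjective_nat Gad
  refine ⟨fun j => if (e (Nat.unpair j).1).1 ≤ j then e (Nat.unpair j).1 else unitGad, ?_, ?_⟩
  · intro j
    dsimp only
    split_ifs with h
    · exact h
    · exact Nat.zero_le _
  · intro g
    obtain ⟨t, ht⟩ := he g
    refine ⟨Nat.pair t g.1, ?_⟩
    dsimp only
    rw [Nat.unpair_pair]
    dsimp only
    rw [ht, if_pos (Nat.right_le_pair t g.1)]

noncomputable def enum : ℕ → Gad := exists_enum.choose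

lemma enum_le (j : ℕ) : (enum j).1 ≤ j := exists_enum.choose_spec.1 j

lemma enum_surj (g : Gad) : ∃ j, enum j = g := exists_enum.choose_spec.2 g

/-- the index of the gadget at position `x` of the `n`-th comb. -/
def idx (n x : ℕ) : ℕ := n - Nat.log 2 (x + 1)

/-- `2 ^ (n+1) - 1` positions `0, …, 2 ^ (n+1) - 2`. -/
def len (n : ℕ) : ℕ := 2 ^ (n + 1) - 2

noncomputable def γ (n : ℕ) (x : ℕ) : Gad := enum (idx n x)

abbrev VV (n : ℕ) : Type := CV (len n) (γ n)

noncomputable def TT (n : ℕ) : SimpleGraph (VV n) := comb (len n) (γ n)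

lemma len_add (n : ℕ) : len n + 1 = 2 ^ (n + 1) - 1 := by
  unfold len
  have : 2 ≤ 2 ^ (n + 1) := by
    calc 2 = 2 ^ 1 := rfl
      _ ≤ 2 ^ (n + 1) := Nat.pow_le_pow_right (by norm_num) (by omega)
  omega

lemma sum_idx (n : ℕ) : ∀ g : ℕ → ℕ, ∑ x ∈ Finset.range (len n + 1), g (idx n x) =
    ∑ j ∈ Finset.range (n + 1), 2 ^ (n - j) * g j := by
  induction n with
  | zero =>
    intro g
    have : len 0 + 1 = 1 := by decide
    rw [this]
    simp [idx]
  | succ n ih =>
    intro g
    have hlen : len (n + 1) + 1 = (len n + 1) + 2 ^ (n + 1) := by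
      rw [len_add, len_add]
      have : 1 ≤ 2 ^ (n + 1) := Nat.one_le_two_pow
      have e : 2 ^ (n + 1 + 1) = 2 ^ (n + 1) + 2 ^ (n + 1) := by ring
      omega
    rw [hlen, Finset.sum_range_add]
    have h1 : ∑ x ∈ Finset.range (len n + 1), g (idx (n + 1) x) =
        ∑ x ∈ Finset.range (len n + 1), (fun j => g (j + 1)) (idx n x) := by
      apply Finset.sum_congr rfl
      intro x hx
      rw [Finset.mem_range, len_add] at hx
      have hlog : Nat.log 2 (x + 1) ≤ n := by
        have : Nat.log 2 (x + 1) < n + 1 := Nat.log_lt_of_lt_pow (by omega) (by omega)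
        omega
      show g (n + 1 - Nat.log 2 (x + 1)) = g (n - Nat.log 2 (x + 1) + 1)
      congr 1
      omega
    have h2 : ∀ x ∈ Finset.range (2 ^ (n + 1)), g (idx (n + 1) (len n + 1 + x)) = g 0 := by
      intro x hx
      rw [Finset.mem_range] at hx
      have hlog : Nat.log 2 (len n + 1 + x + 1) = n + 1 := by
        rw [Nat.log_eq_iff (Or.inr ⟨by norm_num, by omega⟩), len_add]
        have : 1 ≤ 2 ^ (n + 1) := Nat.one_le_two_pow
        have e : 2 ^ (n + 1 + 1) = 2 ^ (n + 1) + 2 ^ (n + 1) := by ring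
        omega
      show g (n + 1 - Nat.log 2 (len n + 1 + x + 1)) = g 0
      rw [hlog, Nat.sub_self]
    rw [h1, ih (fun j => g (j + 1)), Finset.sum_congr rfl h2, Finset.sum_const, Finset.card_range, smul_eq_mul]
    rw [Finset.sum_range_succ' (fun j => 2 ^ (n + 1 - j) * g j) (n + 1)]
    simp only [Nat.sub_zero]
    congr 1
    apply Finset.sum_congr rfl
    intro j _
    rw [Nat.add_sub_add_right]

lemma card_pos (n x : ℕ) :
    (Finset.univ.filter (fun p : VV n => p.1.val = x)).card ≤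
      if x < len n + 1 then idx n x + 1 else 0 := by
  classical
  split_ifs with h
  · have : Finset.univ.filter (fun p : VV n => p.1.val = x) = fib (len n) (γ n) ⟨x, h⟩ := by
      ext p
      rw [mem_fib, Finset.mem_filter]
      constructor
      · rintro ⟨-, hp⟩
        exact Fin.ext hp
      · intro hp
        exact ⟨Finset.mem_univ _, by rw [hp]⟩
    rw [this, card_fib]
    exact Nat.succ_le_succ (enum_le (idx n x))
  · rw [Nat.le_zero, Finset.card_eq_zero, Finset.filter_eq_empty_iff]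
    intro p _ hp
    apply h
    rw [← hp]
    exact p.1.2

lemma Z_le_sum (n k : ℕ) (hk : 1 ≤ k) :
    Z (TT n) k ≤ k ^ k * k * ∑ j ∈ Finset.range (n + 1), 2 ^ (n - j) * (j + 1) ^ k := by
  classical
  have h := Z_le (TT n) (fun p : VV n => p.1.val)
    (fun u v huv => comb_pos (len n) (γ n) u v huv) (len n + 1) (fun v => v.1.2)
    (fun x => if x < len n + 1 then idx n x + 1 else 0) (card_pos n)
    (fun x hx => if_neg (by omega)) k hk
  refine h.trans (Nat.mul_le_mul_left _ (le_of_eq ?_))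
  rw [← sum_idx n (fun j => (j + 1) ^ k)]
  apply Finset.sum_congr rfl
  intro x hx
  rw [if_pos (Finset.mem_range.1 hx)]

lemma exists_bound (k : ℕ) (hk : 1 ≤ k) : ∃ C : ℝ, 0 < C ∧ ∀ n, (Z (TT n) k : ℝ) ≤ C * 2 ^ n := by
  have hs : Summable (fun j : ℕ => ((j + 1 : ℕ) : ℝ) ^ k * (1 / 2 : ℝ) ^ (j + 1)) := by
    have h := summable_pow_mul_geometric_of_norm_lt_one (R := ℝ) k (r := 1 / 2)
      (by rw [Real.norm_eq_abs, abs_of_pos] <;> norm_num)
    exact (summable_nat_add_iff 1).2 h
  let A : ℝ := ∑' j : ℕ, ((j + 1 : ℕ) : ℝ) ^ k * (1 / 2 : ℝ) ^ (j + 1)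
  have hA : 0 ≤ A := tsum_nonneg (fun j => by positivity)
  refine ⟨k ^ k * k * (2 * A) + 1, by positivity, ?_⟩
  intro n
  have h1 : (Z (TT n) k : ℝ) ≤
      (k : ℝ) ^ k * k * ∑ j ∈ Finset.range (n + 1), (2 : ℝ) ^ (n - j) * ((j : ℝ) + 1) ^ k := by
    have := Z_le_sum n k hk
    have h' : (Z (TT n) k : ℝ) ≤
        ((k ^ k * k * ∑ j ∈ Finset.range (n + 1), 2 ^ (n - j) * (j + 1) ^ k : ℕ) : ℝ) := by
      exact_mod_cast this
    refine h'.trans (le_of_eq ?_)
    push_cast
    rfl
  have h2 : ∑ j ∈ Finset.range (n + 1), (2 : ℝ) ^ (n - j) * ((j : ℝ) + 1) ^ k ≤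
      2 ^ n * (2 * A) := by
    have e : ∀ j ∈ Finset.range (n + 1), (2 : ℝ) ^ (n - j) * ((j : ℝ) + 1) ^ k =
        2 ^ n * (2 * (((j + 1 : ℕ) : ℝ) ^ k * (1 / 2 : ℝ) ^ (j + 1))) := by
      intro j hj
      have hj' : j ≤ n := by
        have := Finset.mem_range.1 hj
        omega
      have e1 : (2 : ℝ) ^ n = 2 ^ (n - j) * 2 ^ j := by
        rw [← pow_add]
        congr 1
        omega
      rw [e1, one_div, inv_pow, pow_succ]
      push_cast
      field_simp
    rw [Finset.sum_congr rfl e, ← Finset.mul_sum, ← Finset.mul_sum]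
    have : ∑ j ∈ Finset.range (n + 1), (((j + 1 : ℕ) : ℝ) ^ k * (1 / 2 : ℝ) ^ (j + 1)) ≤ A :=
      hs.sum_le_tsum _ (fun j _ => by positivity)
    have h2n : (0 : ℝ) < 2 ^ n := by positivity
    nlinarith
  have h2n : (0 : ℝ) < 2 ^ n := by positivity
  calc (Z (TT n) k : ℝ) ≤ (k : ℝ) ^ k * k * (2 ^ n * (2 * A)) :=
        h1.trans (mul_le_mul_of_nonneg_left h2 (by positivity))
    _ ≤ (k ^ k * k * (2 * A) + 1) * 2 ^ n := by nlinarith

lemma iso_of_eq {k : ℕ} (n : ℕ) (i : Fin (len n + 1)) (g : Gad) (hg : γ n i.val = g)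
    (hk : g.1 + 1 = k) (S : SimpleGraph (Fin k)) (hS : HEq g.2.1 S) :
    (fib (len n) (γ n) i).card = k ∧
      ((TT n).induce (fib (len n) (γ n) i : Set (VV n))).Connected ∧
      Nonempty ((TT n).induce (fib (len n) (γ n) i : Set (VV n)) ≃g S) := by
  subst hg
  subst hk
  obtain rfl := eq_of_heq hS
  refine ⟨card_fib _ _ i, ?_, fib_iso _ _ i⟩
  obtain ⟨f⟩ := fib_iso (len n) (γ n) i
  exact f.connected_iff.2 (γ n i.val).2.2.connected

lemma c_ge {k : ℕ} (hk : 1 ≤ k) (S : SimpleGraph (Fin k)) (hS : S.IsTree) :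
    ∃ j, ∀ n, j ≤ n → 2 ^ (n - j) ≤ c S (TT n) := by
  classical
  obtain ⟨m, rfl⟩ : ∃ m, k = m + 1 := ⟨k - 1, by omega⟩
  obtain ⟨j, hj⟩ := enum_surj ⟨m, ⟨S, hS⟩⟩
  refine ⟨j, ?_⟩
  intro n hn
  -- the positions with index `j`
  have hpow : 2 ^ (n - j) + 2 ^ (n - j) ≤ 2 ^ (n + 1) := by
    have : 2 ^ (n - j + 1) ≤ 2 ^ (n + 1) := Nat.pow_le_pow_right (by norm_num) (by omega)
    have e : 2 ^ (n - j + 1) = 2 ^ (n - j) + 2 ^ (n - j) := by ring
    omega
  have h1p : 1 ≤ 2 ^ (n - j) := Nat.one_le_two_pow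
  let f : Fin (2 ^ (n - j)) → Finset (VV n) := fun t =>
    fib (len n) (γ n) ⟨2 ^ (n - j) - 1 + t.val, by
      rw [len_add]
      have := t.2
      omega⟩
  have hf : Function.Injective f := by
    intro s t hst
    have hmem : (⟨⟨2 ^ (n - j) - 1 + s.val, by
        rw [len_add]
        have := s.2
        omega⟩, 0⟩ : VV n) ∈ f s := by
      rw [mem_fib]
    rw [hst, mem_fib] at hmem
    have h := congrArg Fin.val hmem
    have h : 2 ^ (n - j) - 1 + s.val = 2 ^ (n - j) - 1 + t.val := h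
    exact Fin.ext (by omega)
  have hsub : (Finset.univ.image f : Set (Finset (VV n))) ⊆
      {U : Finset (VV n) | U.card = m + 1 ∧ ((TT n).induce (U : Set (VV n))).Connected ∧
        Nonempty ((TT n).induce (U : Set (VV n)) ≃g S)} := by
    intro U hU
    rw [Finset.mem_coe, Finset.mem_image] at hU
    obtain ⟨t, -, rfl⟩ := hU
    have ht := t.2
    have hidx : idx n (2 ^ (n - j) - 1 + t.val) = j := by
      have hlog : Nat.log 2 (2 ^ (n - j) - 1 + t.val + 1) = n - j := by
        rw [Nat.log_eq_iff (Or.inr ⟨by norm_num, by omega⟩)]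
        have e : 2 ^ (n - j + 1) = 2 ^ (n - j) + 2 ^ (n - j) := by ring
        omega
      unfold idx
      rw [hlog]
      omega
    exact iso_of_eq n _ ⟨m, ⟨S, hS⟩⟩ (by
      show enum (idx n (2 ^ (n - j) - 1 + t.val)) = _
      rw [hidx, hj]) rfl S HEq.rfl
  calc 2 ^ (n - j) = (Finset.univ.image f).card := by
        rw [Finset.card_image_of_injective _ hf, Finset.card_univ, Fintype.card_fin]
    _ = ((Finset.univ.image f : Finset (Finset (VV n))) : Set (Finset (VV n))).ncard :=
        (Set.ncard_coe_finset _).symm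
    _ ≤ _ := Set.ncard_le_ncard hsub (Set.toFinite _)

lemma c_le_Z {V : Type} [Fintype V] {k : ℕ} (S : SimpleGraph (Fin k)) (T : SimpleGraph V) :
    c S T ≤ Z T k := by
  refine Set.ncard_le_ncard ?_ (Set.toFinite _)
  rintro U ⟨h1, h2, -⟩
  exact ⟨h1, h2⟩

lemma card_ge (n : ℕ) : n ≤ Fintype.card (VV n) := by
  have hinj : Function.Injective (fun i : Fin (len n + 1) => (⟨i, 0⟩ : VV n)) := by
    intro a b h
    exact (Sigma.mk.inj h).1
  have h : Fintype.card (Fin (len n + 1)) ≤ Fintype.card (VV n) :=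
    Fintype.card_le_of_injective _ hinj
  have h0 : Fintype.card (Fin (len n + 1)) = len n + 1 := Fintype.card_fin _
  have h1 := len_add n
  have h2 : n + 1 < 2 ^ (n + 1) := Nat.lt_two_pow_self
  omega

/-- **Main result.** There is a single sequence of finite trees which is `k`-universal for every
`k ≥ 1`. -/
theorem result : ∃ (V : ℕ → Type) (_ : ∀ n, Fintype (V n)) (T : ∀ n, SimpleGraph (V n)),
    (∀ n, (T n).IsTree) ∧ ∀ k, 1 ≤ k → IsUniversal V T k := by
  refine ⟨VV, fun n => inferInstance, TT, fun n => comb_isTree _ _, ?_⟩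
  intro k hk
  refine ⟨?_, ?_⟩
  · filter_upwards [eventually_ge_atTop k] with n hn
    exact hn.trans (card_ge n)
  · intro S hS
    obtain ⟨C, hC, hZ⟩ := exists_bound k hk
    obtain ⟨j, hj⟩ := c_ge hk S hS
    have hlow : ∀ n, j ≤ n → 1 / (C * 2 ^ j) ≤ (c S (TT n) : ℝ) / (Z (TT n) k : ℝ) := by
      intro n hn
      have h1 : ((2 : ℝ)) ^ (n - j) ≤ (c S (TT n) : ℝ) := by exact_mod_cast hj n hn
      have h2 : (c S (TT n) : ℝ) ≤ (Z (TT n) k : ℝ) := by exact_mod_cast c_le_Z S (TT n)
      have h3 : (0 : ℝ) < 2 ^ (n - j) := by positivity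
      have hZpos : (0 : ℝ) < (Z (TT n) k : ℝ) := by linarith
      rw [div_le_div_iff₀ (by positivity) hZpos]
      have e1 : (2 : ℝ) ^ n = 2 ^ (n - j) * 2 ^ j := by
        rw [← pow_add]
        congr 1
        omega
      calc 1 * (Z (TT n) k : ℝ) ≤ C * 2 ^ n := by rw [one_mul]; exact hZ n
        _ = 2 ^ (n - j) * (C * 2 ^ j) := by rw [e1]; ring
        _ ≤ (c S (TT n) : ℝ) * (C * 2 ^ j) :=
          mul_le_mul_of_nonneg_right h1 (by positivity)
    have hub : ∀ n, (c S (TT n) : ℝ) / (Z (TT n) k : ℝ) ≤ 1 := by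
      intro n
      apply div_le_one_of_le₀
      · exact_mod_cast c_le_Z S (TT n)
      · exact Nat.cast_nonneg _
    have hpos : (0 : ℝ) < 1 / (C * 2 ^ j) := by positivity
    refine lt_of_lt_of_le hpos (le_liminf_of_le ?_ ?_)
    · exact (isBoundedUnder_of ⟨1, hub⟩).isCoboundedUnder_ge
    · filter_upwards [eventually_ge_atTop j] with n hn
      exact hlow n hn

end Pool.Agent.Results.MP_f40460_co.UniversalTrees
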